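import Pool.Agent.Helper850.RC.P_ramseyP
import Pool.Agent.Helper850.RC.P_tow_mono
import Mathlib

/-!
# Ramsey's theorem for properties of tuples which depend on a pattern
-/

set_option autoImplicit false

open Finset

namespace Pool.Agent.U286.TR

lemma card_image_le_of {I : Type} (s : Finset I) (g g' : I → ℕ)
    (h : ∀ a ∈ s, ∀ b ∈ s, g a = g b → g' a = g' b) : #(s.image g') ≤ #(s.image g) := by
  classical
  let φ : ℕ → ℕ := fun v => if h : ∃ a ∈ s, g a = v then g' h.choose else 0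
  have h1 : s.image g' ⊆ (s.image g).image φ := by
    intro v hv
    obtain ⟨a, ha, rfl⟩ := mem_image.1 hv
    refine mem_image.2 ⟨g a, mem_image.2 ⟨a, ha, rfl⟩, ?_⟩
    have hex : ∃ b ∈ s, g b = g a := ⟨a, ha, rfl⟩
    simp only [φ, dif_pos hex]
    exact h _ hex.choose_spec.1 _ ha hex.choose_spec.2
  exact (card_le_card h1).trans card_image_le

lemma card_image_eq_of {I : Type} (s : Finset I) (g g' : I → ℕ)
    (h : ∀ a ∈ s, ∀ b ∈ s, g a = g b ↔ g' a = g' b) : #(s.image g) = #(s.image g') :=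
  le_antisymm (card_image_le_of s g' g fun a ha b hb => (h a ha b hb).2)
    (card_image_le_of s g g' fun a ha b hb => (h a ha b hb).1)

/-- the element with a given rank -/
lemma embOfFin_rank {s : ℕ} (Z : Finset ℕ) (hZ : #Z = s) {z : ℕ} (hz : z ∈ Z)
    (h : #{y ∈ Z | y < z} < s) : Z.orderEmbOfFin hZ ⟨#{y ∈ Z | y < z}, h⟩ = z := by
  classical
  have h1 : z ∈ Set.range (Z.orderEmbOfFin hZ) := by
    rw [range_orderEmbOfFin]
    exact hz
  obtain ⟨i, rfl⟩ := h1
  congr 1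
  apply Fin.ext
  simp only
  have h2 : {y ∈ Z | y < Z.orderEmbOfFin hZ i} = (univ.filter fun j : Fin s => j < i).image
      (Z.orderEmbOfFin hZ) := by
    ext y
    rw [mem_filter, mem_image]
    constructor
    · rintro ⟨h3, h4⟩
      have h5 : y ∈ Set.range (Z.orderEmbOfFin hZ) := by
        rw [range_orderEmbOfFin]
        exact h3
      obtain ⟨j, rfl⟩ := h5
      exact ⟨j, mem_filter.2 ⟨mem_univ _, (Z.orderEmbOfFin hZ).lt_iff_lt.1 h4⟩, rfl⟩
    · rintro ⟨j, h3, rfl⟩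
      exact ⟨orderEmbOfFin_mem _ _ _, (Z.orderEmbOfFin hZ).lt_iff_lt.2 (mem_filter.1 h3).2⟩
  rw [h2, card_image_of_injective _ (Z.orderEmbOfFin hZ).injective]
  have h3 : (univ.filter fun j : Fin s => j < i) = Iio i := by
    ext j
    simp
  rw [h3, Fin.card_Iio]

/-- tuples with the same pattern are parts of increasing tuples -/
theorem exists_tuple {I : Type} [Fintype I] {s : ℕ} (hI : Fintype.card I ≤ s) (T Top : Finset ℕ)
    (hTop : Top ⊆ T) (hTopc : s ≤ #Top) (g g' : I → ℕ) (hg : ∀ a, g a ∈ T) (hg' : ∀ a, g' a ∈ T)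
    (hgT : ∀ a, ∀ x ∈ Top, g a < x) (hgT' : ∀ a, ∀ x ∈ Top, g' a < x)
    (hpat : ∀ a b, g a < g b ↔ g' a < g' b) :
    ∃ (x x' : Fin s → ℕ) (u : I → Fin s), StrictMono x ∧ StrictMono x' ∧ (∀ l, x l ∈ T) ∧
      (∀ l, x' l ∈ T) ∧ (∀ a, g a = x (u a)) ∧ ∀ a, g' a = x' (u a) := by
  classical
  have heq : ∀ a b, g a = g b ↔ g' a = g' b := by
    intro a b
    have h1 := hpat a b
    have h2 := hpat b a
    omega
  set V := univ.image g with hV
  set V' := univ.image g' with hV'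
  have hVV : #V = #V' := card_image_eq_of univ g g' fun a _ b _ => heq a b
  have hVs : #V ≤ s := card_image_le.trans (by rw [card_univ]; exact hI)
  obtain ⟨Top₀, hT1, hT2⟩ := exists_subset_card_eq (show s - #V ≤ #Top by omega)
  have hd : Disjoint V Top₀ := by
    rw [disjoint_left]
    intro v hv hv'
    obtain ⟨a, -, rfl⟩ := mem_image.1 hv
    exact lt_irrefl _ (hgT a _ (hT1 hv'))
  have hd' : Disjoint V' Top₀ := by
    rw [disjoint_left]
    intro v hv hv'
    obtain ⟨a, -, rfl⟩ := mem_image.1 hv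
    exact lt_irrefl _ (hgT' a _ (hT1 hv'))
  have hZ : #(V ∪ Top₀) = s := by
    rw [card_union_of_disjoint hd, hT2]
    omega
  have hZ' : #(V' ∪ Top₀) = s := by
    rw [card_union_of_disjoint hd', hT2]
    omega
  have hrank : ∀ a, {y ∈ V ∪ Top₀ | y < g a} = {y ∈ V | y < g a} := by
    intro a
    ext y
    rw [mem_filter, mem_filter, mem_union]
    constructor
    · rintro ⟨h | h, h2⟩
      · exact ⟨h, h2⟩
      · have := hgT a y (hT1 h)
        omega
    · rintro ⟨h, h2⟩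
      exact ⟨Or.inl h, h2⟩
  have hrank' : ∀ a, {y ∈ V' ∪ Top₀ | y < g' a} = {y ∈ V' | y < g' a} := by
    intro a
    ext y
    rw [mem_filter, mem_filter, mem_union]
    constructor
    · rintro ⟨h | h, h2⟩
      · exact ⟨h, h2⟩
      · have := hgT' a y (hT1 h)
        omega
    · rintro ⟨h, h2⟩
      exact ⟨Or.inl h, h2⟩
  have hrr : ∀ a, #{y ∈ V | y < g a} = #{y ∈ V' | y < g' a} := by
    intro a
    have h1 : {y ∈ V | y < g a} = (univ.filter fun b => g b < g a).image g := by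
      ext y
      simp only [hV, mem_filter, mem_image, mem_univ, true_and]
      constructor
      · rintro ⟨⟨b, rfl⟩, h⟩
        exact ⟨b, h, rfl⟩
      · rintro ⟨b, h, rfl⟩
        exact ⟨⟨b, rfl⟩, h⟩
    have h2 : {y ∈ V' | y < g' a} = (univ.filter fun b => g b < g a).image g' := by
      ext y
      simp only [hV', mem_filter, mem_image, mem_univ, true_and]
      constructor
      · rintro ⟨⟨b, rfl⟩, h⟩
        exact ⟨b, (hpat b a).2 h, rfl⟩
      · rintro ⟨b, h, rfl⟩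
        exact ⟨⟨b, rfl⟩, (hpat b a).1 h⟩
    rw [h1, h2]
    exact card_image_eq_of _ g g' fun b _ c _ => heq b c
  have hlt : ∀ a, #{y ∈ V ∪ Top₀ | y < g a} < s := by
    intro a
    have h1 : {y ∈ V ∪ Top₀ | y < g a} ⊂ V ∪ Top₀ := by
      rw [ssubset_iff_subset_ne]
      refine ⟨filter_subset _ _, fun h => ?_⟩
      have h2 : g a ∈ V ∪ Top₀ := mem_union_left _ (mem_image.2 ⟨a, mem_univ _, rfl⟩)
      rw [← h] at h2
      exact lt_irrefl _ (mem_filter.1 h2).2
    have h2 := card_lt_card h1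
    omega
  have hlt' : ∀ a, #{y ∈ V' ∪ Top₀ | y < g' a} < s := by
    intro a
    rw [hrank', ← hrr, ← hrank]
    exact hlt a
  refine ⟨(V ∪ Top₀).orderEmbOfFin hZ, (V' ∪ Top₀).orderEmbOfFin hZ',
    fun a => ⟨#{y ∈ V ∪ Top₀ | y < g a}, hlt a⟩, OrderEmbedding.strictMono _,
    OrderEmbedding.strictMono _, ?_, ?_, ?_, ?_⟩
  · intro l
    rcases mem_union.1 (orderEmbOfFin_mem (V ∪ Top₀) hZ l) with h | h
    · obtain ⟨a, -, h⟩ := mem_image.1 h
      rw [← h]
      exact hg a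
    · exact hTop (hT1 h)
  · intro l
    rcases mem_union.1 (orderEmbOfFin_mem (V' ∪ Top₀) hZ' l) with h | h
    · obtain ⟨a, -, h⟩ := mem_image.1 h
      rw [← h]
      exact hg' a
    · exact hTop (hT1 h)
  · intro a
    exact (embOfFin_rank _ hZ (mem_union_left _ (mem_image.2 ⟨a, mem_univ _, rfl⟩)) (hlt a)).symm
  · intro a
    have h1 := embOfFin_rank _ hZ' (mem_union_left _ (mem_image.2 ⟨a, mem_univ _, rfl⟩)) (hlt' a)
    rw [← h1]
    congr 1
    apply Fin.ext
    simp only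
    rw [hrank, hrank', hrr]

/-- **Ramsey's theorem.** On the set `T` the properties `Q j` of tuples depend on the pattern of
the tuple only (for tuples below the last `s` elements of `T`). -/
theorem exists_canon (s : ℕ) (I : Type) [Fintype I] (hI : Fintype.card I ≤ s) :
    ∃ C : ℕ, ∀ (κ : Type) [Fintype κ], ∃ a : ℕ, ∀ (N n : ℕ) (Q : κ → (I → ℕ) → Prop),
      RC.tow C (a * (n + 1)) ≤ N → ∃ T ⊆ range N, #T = n ∧
        ∀ (j : κ) (g g' : I → ℕ) (Top : Finset ℕ), Top ⊆ T → s ≤ #Top → (∀ a, g a ∈ T) →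
          (∀ a, g' a ∈ T) → (∀ a, ∀ x ∈ Top, g a < x) → (∀ a, ∀ x ∈ Top, g' a < x) →
          (∀ a b, g a < g b ↔ g' a < g' b) → Q j g → Q j g' := by
  classical
  obtain ⟨C, hC⟩ := RC.ramseyP s
  refine ⟨C, fun κ _ => ?_⟩
  obtain ⟨a, ha⟩ := hC ((I → Fin s) × κ)
  refine ⟨a, fun N n Q hN => ?_⟩
  obtain ⟨T, hT, hTn, h⟩ := ha n (range N) (by rw [card_range]; exact hN)
    (fun p x => Q p.2 fun b => x (p.1 b))
  refine ⟨T, hT, hTn, fun j g g' Top h1 h2 h3 h4 h5 h6 h7 hQ => ?_⟩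
  obtain ⟨x, x', u, g1, g2, g3, g4, g5, g6⟩ := exists_tuple hI T Top h1 h2 g g' h3 h4 h5 h6 h7
  have e1 : g = fun b => x (u b) := funext g5
  have e2 : g' = fun b => x' (u b) := funext g6
  rcases h (u, j) with h8 | h8
  · rw [e2]
    exact h8 x' g2 g4
  · rw [e1] at hQ
    exact absurd hQ (h8 x g1 g3)

end Pool.Agent.U286.TR
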