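import Pool.Agent.U286.TR.Def

/-!
# Tree tensor networks in which coordinates are read several times: addresses, cuts and rank
-/

set_option autoImplicit false

open Finset

namespace Pool.Agent.U286.TR

variable {K ι W : Type} [Field K]

/-- the coordinate read at the leaf with the address (the path from the root) -/
def leafAt : Net K ι W → List Bool → Option ι
  | .leaf i _, [] => some i
  | .leaf _ _, _ :: _ => none
  | .node _ _ _, [] => none
  | .node _ l _, false :: a => leafAt l a
  | .node _ _ r, true :: a => leafAt r a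

/-- the addresses of the leaves -/
def addrs : Net K ι W → Finset (List Bool)
  | .leaf _ _ => {[]}
  | .node _ l r => (addrs l).image (List.cons false) ∪ (addrs r).image (List.cons true)

lemma mem_addrs (D : Net K ι W) : ∀ (a : List Bool) (i : ι), leafAt D a = some i → a ∈ addrs D := by
  induction D with
  | leaf j f =>
    intro a i h
    cases a with
    | nil => simp [addrs]
    | cons x a => simp [leafAt] at h
  | node g l r ihl ihr =>
    intro a i h
    cases a with
    | nil => simp [leafAt] at h
    | cons x a =>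
      cases x with
      | false =>
        exact mem_union_left _ (mem_image.2 ⟨a, ihl a i h, rfl⟩)
      | true =>
        exact mem_union_right _ (mem_image.2 ⟨a, ihr a i h, rfl⟩)

lemma card_addrs [DecidableEq ι] (c : ι) (D : Net K ι W) :
    #{a ∈ addrs D | leafAt D a = some c} ≤ D.reads c := by
  classical
  induction D with
  | leaf j f =>
    simp only [addrs, Net.reads]
    split_ifs with h
    · exact (card_filter_le _ _).trans (by simp)
    · rw [Nat.le_zero, card_eq_zero, filter_eq_empty_iff]
      intro a ha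
      rw [mem_singleton] at ha
      subst ha
      simpa [leafAt] using h
  | node g l r ihl ihr =>
    simp only [addrs, Net.reads]
    rw [filter_union]
    refine (card_union_le _ _).trans (Nat.add_le_add ?_ ?_)
    · refine le_trans ?_ ihl
      rw [filter_image]
      exact card_image_le
    · refine le_trans ?_ ihr
      rw [filter_image]
      exact card_image_le

/-- a numbering of the leaves which read the same coordinate -/
lemma exists_num [DecidableEq ι] (D : Net K ι W) (p : ℕ) (hp : ∀ c, D.reads c ≤ p) :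
    ∃ num : List Bool → ℕ, (∀ a i, leafAt D a = some i → num a < p) ∧
      ∀ a a' i, leafAt D a = some i → leafAt D a' = some i → num a = num a' → a = a' := by
  classical
  let S : ι → Finset (List Bool) := fun c => {a ∈ addrs D | leafAt D a = some c}
  have hS : ∀ a i, leafAt D a = some i → a ∈ S i := fun a i h =>
    mem_filter.2 ⟨mem_addrs D a i h, h⟩
  have hc : ∀ c, Fintype.card (S c) ≤ p := fun c => by
    rw [Fintype.card_coe]
    exact (card_addrs c D).trans (hp c)
  let e : ∀ c, S c ≃ Fin (Fintype.card (S c)) := fun c => Fintype.equivFin (S c)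
  let num : List Bool → ℕ := fun a =>
    match leafAt D a with
    | none => 0
    | some i => if h : a ∈ S i then (e i ⟨a, h⟩ : ℕ) else 0
  have hnum : ∀ a i (h : leafAt D a = some i), num a = (e i ⟨a, hS a i h⟩ : ℕ) := by
    intro a i h
    simp only [num, h]
    rw [dif_pos (hS a i h)]
  refine ⟨num, ?_, ?_⟩
  · intro a i h
    rw [hnum a i h]
    exact lt_of_lt_of_le (Fin.is_lt _) (hc i)
  · intro a a' i h h' hn
    rw [hnum a i h, hnum a' i h'] at hn
    have h1 := (e i).injective (Fin.ext hn)
    exact congrArg Subtype.val h1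

/-- addresses of leaves are not comparable -/
lemma eq_of_prefix (D : Net K ι W) : ∀ (a a' : List Bool) (i j : ι), leafAt D a = some i →
    leafAt D a' = some j → a <+: a' → a = a' := by
  induction D with
  | leaf k f =>
    intro a a' i j h h' _
    cases a with
    | nil =>
      cases a' with
      | nil => rfl
      | cons x a' => simp [leafAt] at h'
    | cons x a => simp [leafAt] at h
  | node g l r ihl ihr =>
    intro a a' i j h h' hp
    cases a with
    | nil => simp [leafAt] at h
    | cons x a =>
      cases a' with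
      | nil => simp [leafAt] at h'
      | cons y a' =>
        rw [List.cons_prefix_cons] at hp
        obtain ⟨rfl, hp⟩ := hp
        cases x with
        | false => rw [ihl a a' i j h h' hp]
        | true => rw [ihr a a' i j h h' hp]

/-- The function does not depend on the coordinates in `S`. -/
def Off (S : Set ι) {Y : Type} (f : (ι → Bool) → Y) : Prop :=
  ∀ z z' : ι → Bool, (∀ c, c ∉ S → z c = z' c) → f z = f z'

/-- `F` is a sum of `m` products of numbers which do not depend on `B` and vectors which do not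
depend on `O`. -/
def Form (m : ℕ) (B O : Set ι) (F : (ι → Bool) → W → K) : Prop :=
  ∃ (κ : Type) (_ : Fintype κ) (h : κ → (ι → Bool) → K) (G : κ → (ι → Bool) → W → K),
    Fintype.card κ ≤ m ∧ (∀ k, Off B (h k)) ∧ (∀ k, Off O (G k)) ∧
      ∀ z, F z = ∑ k, h k z • G k z

omit [Field K] in
lemma Form.mono [Field K] {m m' : ℕ} {B O : Set ι} {F : (ι → Bool) → W → K} (h : Form m B O F)
    (hm : m ≤ m') : Form m' B O F := by
  obtain ⟨κ, hf, a, b, h1, h2⟩ := h
  exact ⟨κ, hf, a, b, h1.trans hm, h2⟩

lemma Form.swap [Fintype W] [DecidableEq W] {m w : ℕ} (hw : Fintype.card W ≤ w) {B O : Set ι}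
    {F : (ι → Bool) → W → K} (h : Form m B O F) : Form (m * w) O B F := by
  obtain ⟨κ, hf, a, b, h1, h2, h3, h4⟩ := h
  refine ⟨κ × W, inferInstance, fun q z => b q.1 z q.2,
    fun q z => a q.1 z • Pi.single q.2 (1 : K), ?_, ?_, ?_, ?_⟩
  · rw [Fintype.card_prod]
    exact Nat.mul_le_mul h1 hw
  · intro q z z' hz
    simp only
    rw [h3 q.1 z z' hz]
  · intro q z z' hz
    simp only
    rw [h2 q.1 z z' hz]
  · intro z
    rw [h4, Fintype.sum_prod_type]
    refine sum_congr rfl fun k _ => ?_
    funext i
    simp only [Pi.smul_apply, Finset.sum_apply, smul_eq_mul, Pi.single_apply]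
    rw [sum_eq_single i]
    · rw [if_pos rfl]
      ring
    · intro j _ hj
      rw [if_neg (Ne.symm hj)]
      ring
    · intro hi
      exact absurd (mem_univ i) hi

lemma Form.node {m m' : ℕ} {B O : Set ι} {F F' : (ι → Bool) → W → K} (h : Form m B O F)
    (h' : Form m' B O F') (g : (W → K) →ₗ[K] (W → K) →ₗ[K] (W → K)) :
    Form (m * m') B O fun z => g (F z) (F' z) := by
  obtain ⟨κ, hf, a, b, h1, h2, h3, h4⟩ := h
  obtain ⟨κ', hf', a', b', h1', h2', h3', h4'⟩ := h'
  refine ⟨κ × κ', inferInstance, fun q z => a q.1 z * a' q.2 z,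
    fun q z => g (b q.1 z) (b' q.2 z), ?_, ?_, ?_, ?_⟩
  · rw [Fintype.card_prod]
    exact Nat.mul_le_mul h1 h1'
  · intro q z z' hz
    simp only
    rw [h2 q.1 z z' hz, h2' q.2 z z' hz]
  · intro q z z' hz
    simp only
    rw [h3 q.1 z z' hz, h3' q.2 z z' hz]
  · intro z
    have e1 : g (∑ k, a k z • b k z) = ∑ k, a k z • g (b k z) := by
      rw [map_sum]
      exact sum_congr rfl fun k _ => map_smul _ _ _
    simp only
    rw [h4, h4', e1, LinearMap.sum_apply, Fintype.sum_prod_type]
    refine sum_congr rfl fun k _ => ?_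
    rw [LinearMap.smul_apply, map_sum, smul_sum]
    refine sum_congr rfl fun k' _ => ?_
    rw [map_smul, smul_smul]

/-- The nodes in `𝒩` separate the leaves which read `B` from the leaves which read `O`. -/
def Sep (D : Net K ι W) (𝒩 : Finset (List Bool)) (B O : Set ι) : Prop :=
  ∀ a a' i j, leafAt D a = some i → leafAt D a' = some j → i ∈ B → j ∈ O →
    ∃ n ∈ 𝒩, (n <+: a ∧ ¬ n <+: a') ∨ (n <+: a' ∧ ¬ n <+: a)

/-- no leaf which reads `O` is joined with the root -/
def Away (D : Net K ι W) (𝒩 : Finset (List Bool)) (O : Set ι) : Prop :=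
  ∀ a j, leafAt D a = some j → j ∈ O → ∃ n ∈ 𝒩, n ≠ [] ∧ n <+: a

lemma Sep.symm {D : Net K ι W} {𝒩 : Finset (List Bool)} {B O : Set ι} (h : Sep D 𝒩 B O) :
    Sep D 𝒩 O B := by
  intro a a' i j ha ha' hi hj
  obtain ⟨n, hn, h1⟩ := h a' a j i ha' ha hj hi
  exact ⟨n, hn, h1.symm⟩

lemma Sep.away {D : Net K ι W} {𝒩 : Finset (List Bool)} {B O : Set ι} (h : Sep D 𝒩 B O) :
    Away D 𝒩 O ∨ Away D 𝒩 B := by
  by_contra hno
  push Not at hno
  obtain ⟨h1, h2⟩ := hno
  unfold Away at h1 h2
  push Not at h1 h2
  obtain ⟨a, j, ha, hj, h3⟩ := h1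
  obtain ⟨a', i, ha', hi, h4⟩ := h2
  obtain ⟨n, hn, h5⟩ := h a' a i j ha' ha hi hj
  by_cases hn0 : n = []
  · subst hn0
    rcases h5 with h5 | h5 <;> exact h5.2 (List.nil_prefix)
  · rcases h5 with h5 | h5
    · exact h4 n hn hn0 h5.1
    · exact h3 n hn hn0 h5.1

open Classical in
/-- **Cuts and rank.** -/
theorem form_of_sep [Fintype W] {w : ℕ} (hw : Fintype.card W ≤ w) (hw1 : 1 ≤ w)
    (D : Net K ι W) : ∀ (𝒩 : Finset (List Bool)) (B O : Set ι), Sep D 𝒩 B O → Away D 𝒩 O →
      Form (w ^ #{n ∈ 𝒩 | n ≠ []}) B O D.eval := by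
  induction D with
  | leaf i f =>
    intro 𝒩 B O hS hA
    have hi : i ∉ O := by
      intro hi
      obtain ⟨n, hn, h1, h2⟩ := hA [] i rfl hi
      exact h1 (List.prefix_nil.1 h2)
    have h1 : Form 1 B O (Net.eval (.leaf i f : Net K ι W)) := by
      refine ⟨Unit, inferInstance, fun _ _ => 1, fun _ z => f (z i), by simp, ?_, ?_, ?_⟩
      · intro k z z' _
        rfl
      · intro k z z' hz
        simp only
        rw [hz i hi]
      · intro z
        simp [Net.eval]
    exact h1.mono (Nat.one_le_pow _ _ hw1)
  | node g l r ihl ihr =>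
    intro 𝒩 B O hS hA
    have key : ∀ (x : Bool) (E : Net K ι W)
        (hE : ∀ a, leafAt (.node g l r : Net K ι W) (x :: a) = leafAt E a)
        (ih : ∀ (𝒩 : Finset (List Bool)) (B O : Set ι), Sep E 𝒩 B O → Away E 𝒩 O →
          Form (w ^ #{n ∈ 𝒩 | n ≠ []}) B O E.eval),
        Form (w ^ #(𝒩.preimage (List.cons x) List.cons_injective.injOn)) B O E.eval := by
      intro x E hE ih
      set M := 𝒩.preimage (List.cons x) List.cons_injective.injOn with hM
      have hmem : ∀ n, n ∈ M ↔ x :: n ∈ 𝒩 := fun n => by rw [hM, mem_preimage]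
      have hsep : Sep E M B O := by
        intro a a' i j ha ha' hi hj
        obtain ⟨n, hn, h1⟩ := hS (x :: a) (x :: a') i j (by rw [hE]; exact ha)
          (by rw [hE]; exact ha') hi hj
        cases n with
        | nil => rcases h1 with h1 | h1 <;> exact absurd List.nil_prefix h1.2
        | cons y n =>
          rw [List.cons_prefix_cons, List.cons_prefix_cons] at h1
          have hy : y = x := by rcases h1 with h1 | h1 <;> exact h1.1.1
          subst hy
          refine ⟨n, (hmem n).2 hn, ?_⟩
          simpa using h1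
      by_cases h0 : ([] : List Bool) ∈ M
      · have hcard : #M = #{n ∈ M | n ≠ []} + 1 := by
          have h1 : {n ∈ M | n ≠ []} = M.erase [] := by
            ext n
            simp [and_comm]
          rw [h1, card_erase_add_one h0]
        rw [hcard, pow_succ]
        rcases hsep.away with h1 | h1
        · exact (ih M B O hsep h1).mono (Nat.le_mul_of_pos_right _ hw1)
        · exact (ih M O B hsep.symm h1).swap hw
      · have hcard : #M = #{n ∈ M | n ≠ []} := by
          congr 1
          ext n
          rw [mem_filter]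
          exact ⟨fun h => ⟨h, fun e => h0 (e ▸ h)⟩, fun h => h.1⟩
        rw [hcard]
        refine ih M B O hsep ?_
        intro a j ha hj
        obtain ⟨n, hn, h1, h2⟩ := hA (x :: a) j (by rw [hE]; exact ha) hj
        cases n with
        | nil => exact absurd rfl h1
        | cons y n =>
          rw [List.cons_prefix_cons] at h2
          obtain ⟨rfl, h2⟩ := h2
          have h3 := (hmem n).2 hn
          exact ⟨n, h3, fun e => h0 (e ▸ h3), h2⟩
    have h1 := key false l (fun a => rfl) ihl
    have h2 := key true r (fun a => rfl) ihr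
    have h3 := h1.node h2 g
    rw [← pow_add] at h3
    refine Form.mono (F := Net.eval (.node g l r)) h3 (Nat.pow_le_pow_right hw1 ?_)
    rw [← card_image_of_injective _ (List.cons_injective (a := false)),
      ← card_image_of_injective (𝒩.preimage (List.cons true) _)
        (List.cons_injective (a := true)), ← card_union_of_disjoint]
    · apply card_le_card
      intro n hn
      rcases mem_union.1 hn with h | h
      · obtain ⟨n', h4, rfl⟩ := mem_image.1 h
        exact mem_filter.2 ⟨mem_preimage.1 h4, List.cons_ne_nil _ _⟩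
      · obtain ⟨n', h4, rfl⟩ := mem_image.1 h
        exact mem_filter.2 ⟨mem_preimage.1 h4, List.cons_ne_nil _ _⟩
    · rw [disjoint_left]
      intro n h h'
      obtain ⟨n', -, rfl⟩ := mem_image.1 h
      obtain ⟨n'', -, h4⟩ := mem_image.1 h'
      exact absurd (List.cons.inj h4).1 (by decide)

/-- the output has small rank -/
theorem rank_of_sep [Fintype W] {w : ℕ} (hw : Fintype.card W ≤ w) (hw1 : 1 ≤ w)
    (D : Net K ι W) (φ : (W → K) →ₗ[K] K) (𝒩 : Finset (List Bool)) (B O : Set ι)
    (hS : Sep D 𝒩 B O) :
    ∃ (κ : Type) (_ : Fintype κ) (f g : κ → (ι → Bool) → K), Fintype.card κ ≤ w ^ #𝒩 ∧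
      (∀ k, Off O (f k)) ∧ (∀ k, Off B (g k)) ∧ ∀ z, φ (D.eval z) = ∑ k, f k z * g k z := by
  classical
  have hle : w ^ #{n ∈ 𝒩 | n ≠ []} ≤ w ^ #𝒩 :=
    Nat.pow_le_pow_right hw1 (card_filter_le _ _)
  rcases hS.away with h | h
  · obtain ⟨κ, hf, a, b, h1, h2, h3, h4⟩ := form_of_sep hw hw1 D 𝒩 B O hS h
    refine ⟨κ, hf, fun k z => φ (b k z), a, h1.trans hle, ?_, h2, ?_⟩
    · intro k z z' hz
      simp only
      rw [h3 k z z' hz]
    · intro z
      rw [h4, map_sum]
      exact sum_congr rfl fun k _ => by rw [map_smul, smul_eq_mul, mul_comm]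
  · obtain ⟨κ, hf, a, b, h1, h2, h3, h4⟩ := form_of_sep hw hw1 D 𝒩 O B hS.symm h
    refine ⟨κ, hf, a, fun k z => φ (b k z), h1.trans hle, h2, ?_, ?_⟩
    · intro k z z' hz
      simp only
      rw [h3 k z z' hz]
    · intro z
      rw [h4, map_sum]
      exact sum_congr rfl fun k _ => by rw [map_smul, smul_eq_mul]

end Pool.Agent.U286.TR
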