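import Mathlib

/-!
# Three leaves of a tree
-/

set_option autoImplicit false

namespace Pool.Agent.U286.TR

/-- a node is above `a` and `b` and not above `c` -/
def Split (a b c : List Bool) : Prop := ∃ n, n <+: a ∧ n <+: b ∧ ¬ n <+: c

/-- the node `n` separates `a` and `b` -/
def Parts (n a b : List Bool) : Prop := (n <+: a ∧ ¬ n <+: b) ∨ (n <+: b ∧ ¬ n <+: a)

lemma split_or : ∀ a b c : List Bool, ¬ a <+: b → ¬ a <+: c → ¬ b <+: a → ¬ b <+: c →
    ¬ c <+: a → ¬ c <+: b → Split a b c ∨ Split a c b ∨ Split b c a := by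
  intro a
  induction a with
  | nil => intro b c h; exact absurd List.nil_prefix h
  | cons x a ih =>
    intro b c h1 h2 h3 h4 h5 h6
    cases b with
    | nil => exact absurd List.nil_prefix h3
    | cons y b =>
      cases c with
      | nil => exact absurd List.nil_prefix h5
      | cons z c =>
        by_cases hxy : x = y
        · subst hxy
          by_cases hxz : x = z
          · subst hxz
            simp only [List.cons_prefix_cons, true_and] at h1 h2 h3 h4 h5 h6
            rcases ih b c h1 h2 h3 h4 h5 h6 with ⟨n, g1, g2, g3⟩ | ⟨n, g1, g2, g3⟩ |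
              ⟨n, g1, g2, g3⟩
            · exact Or.inl ⟨x :: n, by simpa using g1, by simpa using g2, by simpa using g3⟩
            · exact Or.inr (Or.inl ⟨x :: n, by simpa using g1, by simpa using g2,
                by simpa using g3⟩)
            · exact Or.inr (Or.inr ⟨x :: n, by simpa using g1, by simpa using g2,
                by simpa using g3⟩)
          · exact Or.inl ⟨[x], by simp, by simp, by simpa using hxz⟩
        · by_cases hxz : x = z
          · subst hxz
            exact Or.inr (Or.inl ⟨[x], by simp, by simp, by simpa using hxy⟩)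
          · have hyz : y = z := by
              revert hxy hxz
              cases x <;> cases y <;> cases z <;> simp
            subst hyz
            exact Or.inr (Or.inr ⟨[y], by simp, by simp, by simpa using Ne.symm hxy⟩)

lemma prefix_take {n e : List Bool} (h : n <+: e) {j : ℕ} (hj : n.length ≤ j) :
    n <+: e.take j := by
  rw [List.prefix_take_iff]
  exact ⟨h, hj⟩

lemma take_prefix {n e : List Bool} (h : n <+: e) {j : ℕ} (hj : j ≤ n.length) :
    e.take j <+: n := by
  have h1 : e.take j = n.take j := by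
    rw [List.prefix_iff_eq_take] at h
    rw [h, List.take_take, min_eq_left hj]
  rw [h1]
  exact List.take_prefix _ _

/-- a node above all `x` and not above any `z` -/
lemma node_one (X Z : Set (List Bool)) (e : List Bool) (h : ∀ x ∈ X, ∀ z ∈ Z, Split x e z) :
    ∃ n, ∀ x ∈ X, ∀ z ∈ Z, Parts n x z := by
  classical
  rcases X.eq_empty_or_nonempty with rfl | ⟨x₀, hx₀⟩
  · exact ⟨[], fun x hx => absurd hx (Set.notMem_empty x)⟩
  let P : ℕ → Prop := fun j => ∀ x ∈ X, e.take j <+: x
  have hP0 : P 0 := fun x _ => by simp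
  obtain ⟨j, hjle, hj, hmax⟩ : ∃ j ≤ e.length, P j ∧ ∀ i ≤ e.length, P i → i ≤ j :=
    ⟨Nat.findGreatest P e.length, Nat.findGreatest_le _,
      Nat.findGreatest_spec (Nat.zero_le _) hP0, fun i hi h => Nat.le_findGreatest hi h⟩
  refine ⟨e.take j, fun x hx z hz => Or.inl ⟨hj x hx, fun hnz => ?_⟩⟩
  by_cases hje : j = e.length
  · rw [hje, List.take_length] at hnz
    obtain ⟨n', -, h2, h3⟩ := h x₀ hx₀ z hz
    exact h3 (h2.trans hnz)
  · have h1 : ¬ P (j + 1) := fun h => by
      have := hmax (j + 1) (by omega) h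
      omega
    simp only [P] at h1
    push Not at h1
    obtain ⟨x', hx', h2⟩ := h1
    obtain ⟨n', g1, g2, g3⟩ := h x' hx' z hz
    have h4 : n'.length ≤ j := by
      by_contra h5
      push Not at h5
      exact h2 ((take_prefix g2 h5).trans g1)
    exact g3 ((prefix_take g2 h4).trans hnz)

/-- a node above all `z` and not above any `x` -/
lemma node_two (X Z : Set (List Bool)) (e : List Bool) (h : ∀ x ∈ X, ∀ z ∈ Z, Split e z x) :
    ∃ n, ∀ x ∈ X, ∀ z ∈ Z, Parts n x z := by
  classical
  rcases X.eq_empty_or_nonempty with rfl | ⟨x₀, hx₀⟩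
  · exact ⟨[], fun x hx => absurd hx (Set.notMem_empty x)⟩
  rcases Z.eq_empty_or_nonempty with rfl | ⟨z₀, hz₀⟩
  · exact ⟨[], fun x _ z hz => absurd hz (Set.notMem_empty z)⟩
  let P : ℕ → Prop := fun j => ∀ x ∈ X, ¬ e.take j <+: x
  have hP : ∃ j, P j := by
    refine ⟨e.length, fun x hx hex => ?_⟩
    rw [List.take_length] at hex
    obtain ⟨n', h1, -, h3⟩ := h x hx z₀ hz₀
    exact h3 (h1.trans hex)
  have hj : P (Nat.find hP) := Nat.find_spec hP
  refine ⟨e.take (Nat.find hP), fun x hx z hz => Or.inr ⟨?_, hj x hx⟩⟩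
  have hpos : Nat.find hP ≠ 0 := by
    intro h0
    rw [h0] at hj
    exact hj x₀ hx₀ (by simp)
  have h1 : ¬ P (Nat.find hP - 1) := Nat.find_min hP (by omega)
  simp only [P] at h1
  push Not at h1
  obtain ⟨x', hx', h2⟩ := h1
  obtain ⟨n', g1, g2, g3⟩ := h x' hx' z hz
  have h4 : Nat.find hP ≤ n'.length := by
    by_contra h5
    push Not at h5
    exact g3 ((prefix_take g1 (by omega)).trans h2)
  exact (take_prefix g1 h4).trans g2

end Pool.Agent.U286.TR
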