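import Pool.Agent.R756.WP.Dens
import Pool.Agent.U286.TR.Net
import Pool.Agent.U286.TR.Split
import Pool.Agent.U286.TR.Canon

/-!
# Homogeneous sets of coordinates: the diagonal blocks are separated by few nodes of the tree
-/

set_option autoImplicit false

open Finset

namespace Pool.Agent.U286.TR

open Pool.Agent.Y613.PJ hiding Good

/-- the coordinates of three cells -/
def val3 {d N : ℕ} (c c' y : Fin d → Fin N) : Fin d ⊕ Fin d ⊕ Fin d → ℕ :=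
  Sum.elim (fun a => ((c a : Fin N) : ℕ))
    (Sum.elim (fun a => ((c' a : Fin N) : ℕ)) fun a => ((y a : Fin N) : ℕ))

lemma val3_inj {d N : ℕ} {c c' y c₁ c₁' y₁ : Fin d → Fin N} (h : val3 c c' y = val3 c₁ c₁' y₁) :
    c = c₁ ∧ c' = c₁' ∧ y = y₁ := by
  refine ⟨?_, ?_, ?_⟩
  · funext a
    exact Fin.ext (congrFun h (Sum.inl a))
  · funext a
    exact Fin.ext (congrFun h (Sum.inr (Sum.inl a)))
  · funext a
    exact Fin.ext (congrFun h (Sum.inr (Sum.inr a)))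

/-- the same pattern -/
def Same {I : Type} (g g' : I → ℕ) : Prop := ∀ a b, g a < g b ↔ g' a < g' b

/-- the three shapes of three leaves of a binary tree -/
def Typ (t : Fin 3) (a a' b : List Bool) : Prop :=
  if t = 0 then Split a a' b else if t = 1 then Split a b a' else Split a' b a

variable {K W : Type} [Field K] {d N : ℕ}

/-- the properties of triples of cells -/
def Prop3 (D : Net K (Fin d → Fin N) W) (num : List Bool → ℕ) (p : ℕ) :
    (Fin p × Fin p × Fin 3) ⊕ Fin p → (Fin d ⊕ Fin d ⊕ Fin d → ℕ) → Prop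
  | .inl q, g => ∃ a a' b c c' y, leafAt D a = some c ∧ leafAt D a' = some c' ∧
      leafAt D b = some y ∧ num a = q.1 ∧ num a' = q.1 ∧ num b = q.2.1 ∧ g = val3 c c' y ∧
      Typ q.2.2 a a' b
  | .inr i, g => ∃ a c, leafAt D a = some c ∧ num a = i ∧ g = val3 c c c

/-- `T` is homogeneous -/
def Hom (D : Net K (Fin d → Fin N) W) (num : List Bool → ℕ) (p : ℕ) (T : Finset ℕ) : Prop :=
  ∀ (j : (Fin p × Fin p × Fin 3) ⊕ Fin p) (g g' : Fin d ⊕ Fin d ⊕ Fin d → ℕ) (Top : Finset ℕ),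
    Top ⊆ T → 3 * d ≤ #Top → (∀ a, g a ∈ T) → (∀ a, g' a ∈ T) → (∀ a, ∀ x ∈ Top, g a < x) →
      (∀ a, ∀ x ∈ Top, g' a < x) → Same g g' → Prop3 D num p j g → Prop3 D num p j g'

/-- the cell has coordinates in `T` below `Top` -/
def Low (T Top : Finset ℕ) (c : Fin d → Fin N) : Prop :=
  ∀ a, ((c a : Fin N) : ℕ) ∈ T ∧ ∀ x ∈ Top, ((c a : Fin N) : ℕ) < x

lemma Low.val3 {T Top : Finset ℕ} {c c' y : Fin d → Fin N} (h : Low T Top c) (h' : Low T Top c')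
    (h'' : Low T Top y) : (∀ a, val3 c c' y a ∈ T) ∧ ∀ a, ∀ x ∈ Top, val3 c c' y a < x := by
  refine ⟨?_, ?_⟩
  · rintro (a | a | a)
    · exact (h a).1
    · exact (h' a).1
    · exact (h'' a).1
  · rintro (a | a | a)
    · exact (h a).2
    · exact (h' a).2
    · exact (h'' a).2

/-- **One node.** The leaves `X` which read the cells of a block, with the same pattern and number,
and the leaves `Z` which read cells on one side of the block are separated by one node. -/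
theorem sep_node {D : Net K (Fin d → Fin N) W} {num : List Bool → ℕ} {p : ℕ}
    (hnum : ∀ a a' i, leafAt D a = some i → leafAt D a' = some i → num a = num a' → a = a')
    {T Top : Finset ℕ} (hom : Hom D num p T) (hTop : Top ⊆ T) (hTopc : 3 * d ≤ #Top)
    {i j : ℕ} (hi : i < p) (hj : j < p) (ce cw : Fin d → Fin N) (he : Low T Top ce)
    (hw : Low T Top cw) (X Z : Set (List Bool))
    (hX : ∀ x ∈ X, num x = i ∧ ∃ c, leafAt D x = some c ∧ Low T Top c)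
    (hZ : ∀ z ∈ Z, num z = j ∧ ∃ y, leafAt D z = some y ∧ Low T Top y)
    (hXw : ∀ x ∈ X, ∀ c, leafAt D x = some c → c ≠ cw ∧ Same (val3 c c c) (val3 cw cw cw) ∧
      Same (val3 c c c) (val3 ce ce ce))
    (hZw : ∀ z ∈ Z, ∀ y, leafAt D z = some y → y ≠ cw)
    (hXZ : ∀ x ∈ X, ∀ z ∈ Z, ∀ c y, leafAt D x = some c → leafAt D z = some y → c ≠ y)
    (hpat : ∀ x ∈ X, ∀ z ∈ Z, ∀ c y, leafAt D x = some c → leafAt D z = some y →
      ∀ x' ∈ X, ∀ z' ∈ Z, ∀ c' y', leafAt D x' = some c' → leafAt D z' = some y' →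
      Same (val3 c cw y) (val3 c' cw y') ∧ Same (val3 c cw y) (val3 ce c' y')) :
    ∃ n, ∀ x ∈ X, ∀ z ∈ Z, Parts n x z := by
  rcases X.eq_empty_or_nonempty with rfl | ⟨x₀, hx₀⟩
  · exact ⟨[], fun x hx => absurd hx (Set.notMem_empty x)⟩
  rcases Z.eq_empty_or_nonempty with rfl | ⟨z₀, hz₀⟩
  · exact ⟨[], fun x _ z hz => absurd hz (Set.notMem_empty z)⟩
  obtain ⟨hx1, c₀, hc₀, hl₀⟩ := hX x₀ hx₀
  obtain ⟨hz1, y₀, hy₀, hly₀⟩ := hZ z₀ hz₀
  obtain ⟨g1, g2, g3⟩ := hXw x₀ hx₀ c₀ hc₀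
  -- the anchors
  have hex : ∀ ca : Fin d → Fin N, Low T Top ca → Same (val3 c₀ c₀ c₀) (val3 ca ca ca) →
      ∃ A, leafAt D A = some ca ∧ num A = i := by
    intro ca hca hs
    obtain ⟨l1, l2⟩ := hl₀.val3 hl₀ hl₀
    obtain ⟨l3, l4⟩ := hca.val3 hca hca
    obtain ⟨A, c, h1, h2, h3⟩ := hom (.inr ⟨i, hi⟩) _ _ Top hTop hTopc l1 l3 l2 l4 hs
      ⟨x₀, c₀, hc₀, hx1, rfl⟩
    rw [(val3_inj h3).1]
    exact ⟨A, h1, h2⟩
  obtain ⟨Aw, hAw, hAw2⟩ := hex cw hw g2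
  obtain ⟨Ae, hAe, hAe2⟩ := hex ce he g3
  -- the shape
  have hinc : ∀ a a' c c', leafAt D a = some c → leafAt D a' = some c' → c ≠ c' → ¬ a <+: a' := by
    intro a a' c c' h h' hne hp
    have := eq_of_prefix D a a' c c' h h' hp
    subst this
    rw [h] at h'
    exact hne (Option.some.inj h')
  obtain ⟨t, ht⟩ : ∃ t : Fin 3, Typ t x₀ Aw z₀ := by
    have n1 := g1
    have n2 := hXZ x₀ hx₀ z₀ hz₀ c₀ y₀ hc₀ hy₀
    have n3 := hZw z₀ hz₀ y₀ hy₀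
    rcases split_or x₀ Aw z₀ (hinc _ _ _ _ hc₀ hAw n1) (hinc _ _ _ _ hc₀ hy₀ n2)
      (hinc _ _ _ _ hAw hc₀ n1.symm) (hinc _ _ _ _ hAw hy₀ n3.symm)
      (hinc _ _ _ _ hy₀ hc₀ n2.symm) (hinc _ _ _ _ hy₀ hAw n3) with h | h | h
    · exact ⟨0, by simpa [Typ] using h⟩
    · exact ⟨1, by simpa [Typ] using h⟩
    · exact ⟨2, by simpa [Typ] using h⟩
  have hQ : Prop3 D num p (.inl (⟨i, hi⟩, ⟨j, hj⟩, t)) (val3 c₀ cw y₀) :=
    ⟨x₀, Aw, z₀, c₀, cw, y₀, hc₀, hAw, hy₀, hx1, hAw2, hz1, rfl, ht⟩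
  obtain ⟨m1, m2⟩ := hl₀.val3 hw hly₀
  have h1 : ∀ x ∈ X, ∀ z ∈ Z, Typ t x Aw z ∧ Typ t Ae x z := by
    intro x hx z hz
    obtain ⟨hx1', c, hc, hl⟩ := hX x hx
    obtain ⟨hz1', y, hy, hly⟩ := hZ z hz
    obtain ⟨s1, s2⟩ := hpat x₀ hx₀ z₀ hz₀ c₀ y₀ hc₀ hy₀ x hx z hz c y hc hy
    constructor
    · obtain ⟨l1, l2⟩ := hl.val3 hw hly
      obtain ⟨a, a', b, q, q', q'', e1, e2, e3, e4, e5, e6, e7, e8⟩ :=
        hom (.inl (⟨i, hi⟩, ⟨j, hj⟩, t)) _ _ Top hTop hTopc m1 l1 m2 l2 s1 hQ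
      obtain ⟨rfl, rfl, rfl⟩ := val3_inj e7
      simp only at e4 e5 e6 e8
      rw [hnum x a c hc e1 (by rw [hx1', e4]), hnum Aw a' cw hAw e2 (by rw [hAw2, e5]),
        hnum z b y hy e3 (by rw [hz1', e6])]
      exact e8
    · obtain ⟨l1, l2⟩ := he.val3 hl hly
      obtain ⟨a, a', b, q, q', q'', e1, e2, e3, e4, e5, e6, e7, e8⟩ :=
        hom (.inl (⟨i, hi⟩, ⟨j, hj⟩, t)) _ _ Top hTop hTopc m1 l1 m2 l2 s2 hQ
      obtain ⟨rfl, rfl, rfl⟩ := val3_inj e7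
      simp only at e4 e5 e6 e8
      rw [hnum Ae a ce hAe e1 (by rw [hAe2, e4]), hnum x a' c hc e2 (by rw [hx1', e5]),
        hnum z b y hy e3 (by rw [hz1', e6])]
      exact e8
  have ht3 : t = 0 ∨ t = 1 ∨ t = 2 := by
    fin_cases t <;> simp
  rcases ht3 with rfl | rfl | rfl
  · exact node_one X Z Aw fun x hx z hz => by
      have := (h1 x hx z hz).1
      simpa [Typ] using this
  · exact node_two X Z Ae fun x hx z hz => by
      have := (h1 x hx z hz).2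
      simpa [Typ] using this
  · exact node_two X Z Aw fun x hx z hz => by
      have := (h1 x hx z hz).1
      simpa [Typ] using this

/-- patterns of triples -/
lemma same_val3 {c c' y c₁ c₁' y₁ : Fin d → Fin N} (h1 : ∀ a b, c a < c b ↔ c₁ a < c₁ b)
    (h2 : ∀ a b, c' a < c' b ↔ c₁' a < c₁' b) (h3 : ∀ a b, y a < y b ↔ y₁ a < y₁ b)
    (h4 : ∀ a b, c a < c' b ∧ c₁ a < c₁' b)
    (h5 : (∀ a b, c a < y b ∧ c' a < y b ∧ c₁ a < y₁ b ∧ c₁' a < y₁ b) ∨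
      ∀ a b, y b < c a ∧ y b < c' a ∧ y₁ b < c₁ a ∧ y₁ b < c₁' a) :
    Same (val3 c c' y) (val3 c₁ c₁' y₁) := by
  rintro (a | a | a) (b | b | b) <;> simp only [val3, Sum.elim_inl, Sum.elim_inr, Fin.val_fin_lt]
  · exact h1 a b
  · exact iff_of_true (h4 a b).1 (h4 a b).2
  · rcases h5 with h5 | h5
    · exact iff_of_true (h5 a b).1 (h5 a b).2.2.1
    · exact iff_of_false (h5 a b).1.not_gt (h5 a b).2.2.1.not_gt
  · exact iff_of_false (h4 b a).1.not_gt (h4 b a).2.not_gt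
  · exact h2 a b
  · rcases h5 with h5 | h5
    · exact iff_of_true (h5 a b).2.1 (h5 a b).2.2.2
    · exact iff_of_false (h5 a b).2.1.not_gt (h5 a b).2.2.2.not_gt
  · rcases h5 with h5 | h5
    · exact iff_of_false (h5 b a).1.not_gt (h5 b a).2.2.1.not_gt
    · exact iff_of_true (h5 b a).1 (h5 b a).2.2.1
  · rcases h5 with h5 | h5
    · exact iff_of_false (h5 b a).2.1.not_gt (h5 b a).2.2.2.not_gt
    · exact iff_of_true (h5 b a).2.1 (h5 b a).2.2.2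
  · exact h3 a b

lemma same_self {c c₁ : Fin d → Fin N} (h1 : ∀ a b, c a < c b ↔ c₁ a < c₁ b) :
    Same (val3 c c c) (val3 c₁ c₁ c₁) := by
  rintro (a | a | a) (b | b | b) <;>
    simp only [val3, Sum.elim_inl, Sum.elim_inr, Fin.val_fin_lt] <;> exact h1 a b

end Pool.Agent.U286.TR
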