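import Mathlib

/-!
# Tree tensor networks for families of subsets of `[N]^d`: the definitions
-/

set_option autoImplicit false

open Finset

namespace Pool.Agent.U286.TR

/-- A family `S` of subsets of `[N]^d` is good if there are `A ∈ S` and a nonempty `γ ⊆ [N]` with
`A ∩ γ^d = ∅` and `A ∪ γ^d ∈ S`. -/
def Good {N d : ℕ} (S : Finset (Finset (Fin d → Fin N))) : Prop :=
  ∃ A ∈ S, ∃ γ : Finset (Fin N), γ.Nonempty ∧ Disjoint A (Fintype.piFinset fun _ : Fin d => γ) ∧
    A ∪ Fintype.piFinset (fun _ : Fin d => γ) ∈ S

/-- A tree tensor network over the field `K`, with messages in `K ^ W`: a binary tree whose leaves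
read one bit each (the bits are numbered by `ι`) and send a message which depends on this bit; every
inner node combines the messages of its two children by a bilinear map. -/
inductive Net (K ι W : Type) [Field K] : Type
  | leaf (i : ι) (f : Bool → W → K) : Net K ι W
  | node (g : (W → K) →ₗ[K] (W → K) →ₗ[K] (W → K)) (l r : Net K ι W) : Net K ι W

variable {K ι W : Type} [Field K]

/-- the message sent by the root -/
def Net.eval : Net K ι W → (ι → Bool) → W → K
  | .leaf i f, x => f (x i)
  | .node g l r, x => g (l.eval x) (r.eval x)

/-- the number of the leaves which read the bit `c` -/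
def Net.reads [DecidableEq ι] (c : ι) : Net K ι W → ℕ
  | .leaf i _ => if i = c then 1 else 0
  | .node _ l r => l.reads c + r.reads c

/-- The family `F` of subsets of `[N]^d` is decided by a tree tensor network over some field, with
messages of length at most `w`, in which each cell is read at most at `p` leaves: `F` consists of the
sets for which a linear form `φ` of the message of the root is not zero (the bit of a cell says if it
is in the set). -/
def TreeDecided (d N w p : ℕ) (F : Finset (Finset (Fin d → Fin N))) : Prop :=
  ∃ (K : Type) (_ : Field K) (w' : ℕ) (D : Net K (Fin d → Fin N) (Fin w'))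
    (φ : (Fin w' → K) →ₗ[K] K), w' ≤ w ∧ (∀ c, D.reads c ≤ p) ∧
      ∀ A, A ∈ F ↔ φ (D.eval fun c => decide (c ∈ A)) ≠ 0

/-- The family `F` of subsets of `[N]^d` is decided by a product of `w × w` matrices over some field,
each of which depends on the bit of one cell, where each cell occurs at most `p` times: `F` consists
of the sets for which the product, multiplied by a row `u` and a column `v`, is not zero. -/
def ProductDecided (d N w p : ℕ) (F : Finset (Finset (Fin d → Fin N))) : Prop :=
  ∃ (K : Type) (_ : Field K) (n : ℕ) (cell : Fin n → Fin d → Fin N)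
    (M : Fin n → Bool → Matrix (Fin w) (Fin w) K) (u v : Fin w → K),
    (∀ c, #{t | cell t = c} ≤ p) ∧
      ∀ A, A ∈ F ↔ ∑ i, ∑ j, u i * (List.ofFn fun t => M t (decide (cell t ∈ A))).prod i j * v j ≠ 0

end Pool.Agent.U286.TR
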