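import Pool.Agent.U286.TR.Top

/-!
# Products of matrices are tree tensor networks
-/

set_option autoImplicit false

open Finset

namespace Pool.Agent.U286.TR

variable {K : Type} [Field K] {w : ℕ} {X : Type}

/-- vector times matrix -/
def vm (v : Fin w → K) (m : Fin (w * w) → K) : Fin w → K :=
  fun q' => ∑ q, v q * m (finProdFinEquiv (q, q'))

lemma vm_add_left (v v' : Fin w → K) (m : Fin (w * w) → K) : vm (v + v') m = vm v m + vm v' m := by
  funext q'
  simp only [vm, Pi.add_apply, add_mul, sum_add_distrib]

lemma vm_smul_left (c : K) (v : Fin w → K) (m : Fin (w * w) → K) : vm (c • v) m = c • vm v m := by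
  funext q'
  simp only [vm, Pi.smul_apply, smul_eq_mul, mul_sum]
  exact sum_congr rfl fun q _ => by ring

lemma vm_add_right (v : Fin w → K) (m m' : Fin (w * w) → K) : vm v (m + m') = vm v m + vm v m' := by
  funext q'
  simp only [vm, Pi.add_apply, mul_add, sum_add_distrib]

lemma vm_smul_right (c : K) (v : Fin w → K) (m : Fin (w * w) → K) : vm v (c • m) = c • vm v m := by
  funext q'
  simp only [vm, Pi.smul_apply, smul_eq_mul, mul_sum]
  exact sum_congr rfl fun q _ => by ring

/-- a matrix as a vector -/
def flat (M : Matrix (Fin w) (Fin w) K) : Fin (w * w) → K :=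
  fun x => M (finProdFinEquiv.symm x).1 (finProdFinEquiv.symm x).2

lemma vm_flat (v : Fin w → K) (M : Matrix (Fin w) (Fin w) K) (q' : Fin w) :
    vm v (flat M) q' = ∑ q, v q * M q q' := by
  simp [vm, flat]

/-- a vector as a matrix -/
def spread (v : Fin w → K) : Fin (w * w) → K := fun x => v (finProdFinEquiv.symm x).2

/-- a row -/
def row (i : Fin w) : (Fin (w * w) → K) →ₗ[K] (Fin w → K) where
  toFun m := fun j => m (finProdFinEquiv (i, j))
  map_add' _ _ := rfl
  map_smul' _ _ := rfl

lemma row_spread (i : Fin w) (v : Fin w → K) : row i (spread v) = v := by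
  funext j
  simp [row, spread]

/-- row times product -/
def lvec (u : Fin w → K) (l : List (Matrix (Fin w) (Fin w) K)) : Fin w → K :=
  fun j => ∑ i, u i * l.prod i j

lemma lvec_concat (u : Fin w → K) (l : List (Matrix (Fin w) (Fin w) K))
    (M : Matrix (Fin w) (Fin w) K) : lvec u (l ++ [M]) = vm (lvec u l) (flat M) := by
  funext j
  rw [vm_flat]
  simp only [lvec, List.prod_append, List.prod_singleton, Matrix.mul_apply, mul_sum, sum_mul]
  rw [sum_comm]
  exact sum_congr rfl fun q _ => sum_congr rfl fun i _ => by ring

/-- the product as a network -/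
theorem exists_net [DecidableEq X] (u : Fin w → K) (i₀ : Fin w) (n : ℕ) (cell : Fin n → X)
    (M : Fin n → Bool → Matrix (Fin w) (Fin w) K) :
    n = 0 ∨ ∃ (D : Net K X (Fin (w * w))) (L : (Fin (w * w) → K) →ₗ[K] (Fin w → K)),
      (∀ z, lvec u (List.ofFn fun t => M t (z (cell t))) = L (D.eval z)) ∧
        ∀ c, D.reads c ≤ #{t | cell t = c} := by
  induction n with
  | zero => exact Or.inl rfl
  | succ n ih =>
    right
    have hst : ∀ z : X → Bool, lvec u (List.ofFn fun t => M t (z (cell t))) =
        vm (lvec u (List.ofFn fun t : Fin n => M t.castSucc (z (cell t.castSucc))))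
          (flat (M (Fin.last n) (z (cell (Fin.last n))))) := by
      intro z
      rw [List.ofFn_succ', List.concat_eq_append, lvec_concat]
    have hcount : ∀ c, #{t | cell t = c} = #{t : Fin n | cell t.castSucc = c} +
        if cell (Fin.last n) = c then 1 else 0 := by
      intro c
      rw [card_filter, card_filter, Fin.sum_univ_castSucc]
    rcases ih (fun t => cell t.castSucc) (fun t => M t.castSucc) with h0 | ⟨D, L, h1, h2⟩
    · subst h0
      refine ⟨.leaf (cell (Fin.last 0)) fun β => flat (M (Fin.last 0) β),
        ⟨⟨fun m => vm (lvec u []) m, ?_⟩, ?_⟩, ?_, ?_⟩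
      · intro m m'
        rw [vm_add_right]
      · intro c m
        simp only [RingHom.id_apply]
        rw [vm_smul_right]
      · intro z
        rw [hst]
        rfl
      · intro c'
        rw [hcount]
        exact Nat.le_add_left _ _
    · let g : (Fin (w * w) → K) →ₗ[K] (Fin (w * w) → K) →ₗ[K] (Fin (w * w) → K) :=
        LinearMap.mk₂ K (fun m m' => spread (vm (L m) m'))
          (fun m m' m'' => by
            rw [map_add, vm_add_left]
            rfl)
          (fun c m m' => by
            rw [map_smul, vm_smul_left]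
            rfl)
          (fun m m' m'' => by
            rw [vm_add_right]
            rfl)
          (fun c m m' => by
            rw [vm_smul_right]
            rfl)
      refine ⟨.node g D (.leaf (cell (Fin.last n)) fun β => flat (M (Fin.last n) β)), row i₀,
        ?_, ?_⟩
      · intro z
        have h3 : (Net.node g D (.leaf (cell (Fin.last n)) fun β => flat (M (Fin.last n) β))).eval
            z = spread (vm (L (D.eval z)) (flat (M (Fin.last n) (z (cell (Fin.last n)))))) := rfl
        rw [hst, h1, h3, row_spread]
      · intro c'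
        rw [hcount]
        exact Nat.add_le_add (h2 c') le_rfl

/-- **Products of matrices.** -/
theorem treeDecided_of_productDecided {d N w p : ℕ} (hN : 1 ≤ N) (hp : 1 ≤ p)
    {F : Finset (Finset (Fin d → Fin N))} (h : ProductDecided d N w p F) :
    TreeDecided d N (w ^ 2) p F := by
  classical
  obtain ⟨K, _, n, cell, M, u, v, hP, hF⟩ := h
  have hww : w * w ≤ w ^ 2 := (pow_two w).ge
  let c₀ : Fin d → Fin N := fun _ => ⟨0, hN⟩
  have hread : ∀ (f : Bool → Fin (w * w) → K) (c : Fin d → Fin N),
      (Net.leaf c₀ f : Net K (Fin d → Fin N) (Fin (w * w))).reads c ≤ p := by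
    intro f c
    simp only [Net.reads]
    split_ifs
    · exact hp
    · exact Nat.zero_le _
  have hval : ∀ A : Finset (Fin d → Fin N), ∑ i, ∑ j, u i *
      (List.ofFn fun t => M t (decide (cell t ∈ A))).prod i j * v j =
      ∑ j, lvec u (List.ofFn fun t => M t (decide (cell t ∈ A))) j * v j := by
    intro A
    rw [sum_comm]
    simp only [lvec, sum_mul]
  by_cases hw0 : w = 0
  · subst hw0
    refine ⟨K, inferInstance, 0 * 0, .leaf c₀ fun _ => 0, 0, hww, hread _, fun A => ?_⟩
    rw [hF]
    simp
  have i₀ : Fin w := ⟨0, Nat.pos_of_ne_zero hw0⟩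
  rcases exists_net u i₀ n cell M with h0 | ⟨D, L, h1, h2⟩
  · subst h0
    refine ⟨K, inferInstance, w * w, .leaf c₀ fun _ _ => ∑ j, lvec u [] j * v j,
      LinearMap.proj (finProdFinEquiv (i₀, i₀)), hww, hread _, fun A => ?_⟩
    rw [hF, hval, List.ofFn_zero]
    rfl
  · refine ⟨K, inferInstance, w * w, D, ⟨⟨fun m => ∑ q, L m q * v q, ?_⟩, ?_⟩, hww,
      fun c => (h2 c).trans (hP c), fun A => ?_⟩
    · intro m m'
      rw [map_add]
      simp only [Pi.add_apply, add_mul, sum_add_distrib]
    · intro c m
      change ∑ q, L (c • m) q * v q = c • ∑ q, L m q * v q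
      rw [map_smul]
      simp only [Pi.smul_apply, smul_eq_mul, mul_sum]
      exact sum_congr rfl fun q _ => by ring
    · rw [hF, hval]
      have h3 := h1 fun c => decide (c ∈ A)
      rw [h3]
      rfl

end Pool.Agent.U286.TR
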