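import Pool.Agent.U286.TR.Blocks

/-!
# Homogeneous sets of coordinates: the blocks and their anchors
-/

set_option autoImplicit false

open Finset

namespace Pool.Agent.U286.TR

open Pool.Agent.Y613.PJ hiding Good

/-- the numbering of the coordinates -/
theorem exists_sigma {N K₀ d : ℕ} (T : Finset ℕ) (hTN : T ⊆ range N)
    (hTK : #T = (d + 1) * (K₀ + 1) + 3 * d) :
    ∃ (σ : Fin N ≃ Fin N) (E : Fin ((d + 1) * (K₀ + 1) + 3 * d) → ℕ), StrictMono E ∧
      (∀ i, E i ∈ T) ∧ (∀ i, E i < N) ∧ ∀ (i : Fin N), (i : ℕ) < K₀ →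
        ∃ j : Fin ((d + 1) * (K₀ + 1) + 3 * d), (j : ℕ) = (d + 1) * i + d ∧
          ((σ.symm i : Fin N) : ℕ) = E j := by
  classical
  let E : Fin ((d + 1) * (K₀ + 1) + 3 * d) → ℕ := fun i => T.orderEmbOfFin hTK i
  have hEm : StrictMono E := (T.orderEmbOfFin hTK).strictMono
  have hET : ∀ i, E i ∈ T := fun i => orderEmbOfFin_mem T hTK i
  have hEN : ∀ i, E i < N := fun i => mem_range.1 (hTN (hET i))
  have hlt : ∀ i : ℕ, i < K₀ → (d + 1) * i + d < (d + 1) * (K₀ + 1) + 3 * d := by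
    intro i hi
    have : (d + 1) * i ≤ (d + 1) * K₀ := Nat.mul_le_mul_left _ hi.le
    rw [mul_add (d + 1) K₀]
    omega
  obtain ⟨g, hg⟩ := exists_equiv_extend_of_card_eq (α := Fin N) (β := Fin N)
    (t := univ) (by simp) (s := univ.filter fun i : Fin N => (i : ℕ) < K₀)
    (f := fun i => if h : (i : ℕ) < K₀ then ⟨E ⟨(d + 1) * i + d, hlt i h⟩, hEN _⟩ else i)
    (by simp) (by
      intro i hi j hj hij
      have hi' : (i : ℕ) < K₀ := (mem_filter.1 hi).2
      have hj' : (j : ℕ) < K₀ := (mem_filter.1 hj).2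
      simp only [dif_pos hi', dif_pos hj', Fin.mk.injEq] at hij
      have := hEm.injective hij
      simp only [Fin.mk.injEq] at this
      have h2 : (d + 1) * (i : ℕ) = (d + 1) * j := by omega
      exact Fin.ext (Nat.eq_of_mul_eq_mul_left (Nat.succ_pos d) h2))
  let τ : Fin N ≃ Fin N := g.trans (Equiv.subtypeUnivEquiv (fun x => mem_univ x))
  refine ⟨τ.symm, E, hEm, hET, hEN, fun i h => ⟨⟨(d + 1) * i + d, hlt i h⟩, rfl, ?_⟩⟩
  have h1 := hg i (mem_filter.2 ⟨mem_univ _, h⟩)
  have h2 : τ i = (g i : Fin N) := rfl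
  rw [Equiv.symm_symm, h2, h1]
  simp only [dif_pos h]

/-- the coordinates of the cell have numbers from `lo` to `hi - 1` -/
def At {N M d : ℕ} (E : Fin M → ℕ) (lo hi : ℕ) (c : Fin d → Fin N) : Prop :=
  ∀ a, ∃ i : Fin M, ((c a : Fin N) : ℕ) = E i ∧ lo ≤ i ∧ (i : ℕ) < hi

lemma At.lt {N M d : ℕ} {E : Fin M → ℕ} (hE : StrictMono E) {lo hi lo' hi' : ℕ}
    {c c' : Fin d → Fin N} (h : At E lo hi c) (h' : At E lo' hi' c') (hh : hi ≤ lo') (a b : Fin d) :
    c a < c' b := by
  obtain ⟨i, h1, h2, h3⟩ := h a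
  obtain ⟨j, h4, h5, h6⟩ := h' b
  rw [Fin.lt_def, h1, h4]
  apply hE
  rw [Fin.lt_def]
  omega

/-- the last `3 d` numbers -/
def topSet {K₀ d : ℕ} (E : Fin ((d + 1) * (K₀ + 1) + 3 * d) → ℕ) : Finset ℕ :=
  univ.image fun i : Fin (3 * d) => E ⟨(d + 1) * (K₀ + 1) + i, by omega⟩

lemma topSet_card {K₀ d : ℕ} {E : Fin ((d + 1) * (K₀ + 1) + 3 * d) → ℕ} (hE : StrictMono E) :
    3 * d ≤ #(topSet E) := by
  unfold topSet
  rw [card_image_of_injective, card_univ, Fintype.card_fin]
  intro i j hij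
  have := hE.injective hij
  simp only [Fin.mk.injEq] at this
  exact Fin.ext (by omega)

lemma At.low {N K₀ d : ℕ} {E : Fin ((d + 1) * (K₀ + 1) + 3 * d) → ℕ} (hE : StrictMono E)
    {T : Finset ℕ} (hET : ∀ i, E i ∈ T) {lo hi : ℕ} {c : Fin d → Fin N} (h : At E lo hi c)
    (hh : hi ≤ (d + 1) * (K₀ + 1)) : Low T (topSet E) c := by
  intro a
  obtain ⟨i, h1, h2, h3⟩ := h a
  refine ⟨by rw [h1]; exact hET i, fun x hx => ?_⟩
  obtain ⟨j, -, rfl⟩ := mem_image.1 hx
  rw [h1]
  apply hE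
  rw [Fin.lt_def]
  simp only
  omega

/-- anchors -/
lemma exists_anchor {N M d : ℕ} {E : Fin M → ℕ} (hE : StrictMono E) (hEN : ∀ i, E i < N)
    (c : Fin d → Fin N) (s : ℕ) (hs : s + d ≤ M) :
    ∃ ca : Fin d → Fin N, At E s (s + d) ca ∧ ∀ a b, c a < c b ↔ ca a < ca b := by
  classical
  have hr : ∀ a, #{b | c b < c a} < d := by
    intro a
    have h1 : ({b | c b < c a} : Finset (Fin d)) ⊂ univ := by
      rw [ssubset_univ_iff]
      intro h
      have h2 : a ∈ ({b | c b < c a} : Finset (Fin d)) := by rw [h]; exact mem_univ a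
      exact lt_irrefl _ (mem_filter.1 h2).2
    have h2 := card_lt_card h1
    rwa [card_univ, Fintype.card_fin] at h2
  have hlt : ∀ a, s + #{b | c b < c a} < M := fun a => by
    have := hr a
    omega
  have hmono : ∀ a b, c a < c b → #{e | c e < c a} < #{e | c e < c b} := by
    intro a b hab
    apply card_lt_card
    rw [ssubset_iff_of_subset]
    · exact ⟨a, mem_filter.2 ⟨mem_univ _, hab⟩, fun h => lt_irrefl _ (mem_filter.1 h).2⟩
    · intro e he
      exact mem_filter.2 ⟨mem_univ _, (mem_filter.1 he).2.trans hab⟩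
  refine ⟨fun a => ⟨E ⟨s + #{b | c b < c a}, hlt a⟩, hEN _⟩, ?_, ?_⟩
  · intro a
    refine ⟨⟨s + #{b | c b < c a}, hlt a⟩, rfl, Nat.le_add_right _ _, ?_⟩
    have := hr a
    simp only
    omega
  · intro a b
    constructor
    · intro h
      rw [Fin.lt_def]
      simp only
      apply hE
      rw [Fin.lt_def]
      simp only
      have := hmono a b h
      omega
    · intro h
      rw [Fin.lt_def] at h
      simp only at h
      have h1 := hE.lt_iff_lt.1 h
      rw [Fin.lt_def] at h1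
      simp only at h1
      by_contra hno
      rw [not_lt] at hno
      rcases hno.lt_or_eq with h2 | h2
      · have := hmono b a h2
        omega
      · rw [h2] at h1
        omega

/-- the pattern of a cell -/
def pat {d N : ℕ} (c : Fin d → Fin N) : Fin d → Fin d → Bool := fun a b => decide (c a < c b)

lemma pat_iff {d N : ℕ} {c c' : Fin d → Fin N} (h : pat c = pat c') (a b : Fin d) :
    c a < c b ↔ c' a < c' b := by
  have := congrFun (congrFun h a) b
  simpa [pat] using this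

variable {K W : Type} [Field K] {d N : ℕ}

/-- **Each block is separated from the other blocks by few nodes.** -/
theorem exists_sep {l p K₀ : ℕ} {D : Net K (Fin d → Fin N) W}
    {num : List Bool → ℕ} (hnum0 : ∀ a i, leafAt D a = some i → num a < p)
    (hnum : ∀ a a' i, leafAt D a = some i → leafAt D a' = some i → num a = num a' → a = a')
    {T : Finset ℕ} (hom : Hom D num p T) {E : Fin ((d + 1) * (K₀ + 1) + 3 * d) → ℕ}
    (hE : StrictMono E) (hET : ∀ i, E i ∈ T) (hEN : ∀ i, E i < N) (hd : 1 ≤ d)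
    (σ : Fin N ≃ Fin N)
    (hσ : ∀ (i : Fin N), (i : ℕ) < K₀ → ∃ j : Fin ((d + 1) * (K₀ + 1) + 3 * d),
      (j : ℕ) = (d + 1) * i + d ∧ ((σ.symm i : Fin N) : ℕ) = E j)
    {b : ℕ} (hb : b * l ≤ N) (hbK : b * l ≤ K₀) (k : Fin b) :
    ∃ 𝒩 : Finset (List Bool),
      #𝒩 ≤ Fintype.card (((Fin d → Fin d → Bool) × Fin p) × ((Fin d → Fin d → Bool) × Fin p) ×
        Bool) ∧
      Sep D 𝒩 {c | ∃ y : Fin d → Fin l, c = emb σ hb (k, y)}
        {c | ∃ (j : Fin b) (y : Fin d → Fin l), j ≠ k ∧ c = emb σ hb (j, y)} := by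
  classical
  have hbl : l * b ≤ K₀ := by rw [mul_comm]; exact hbK
  have hbN : l * b ≤ N := by rw [mul_comm]; exact hb
  -- the coordinates of the blocks
  have hblock : ∀ (j : Fin b) (y : Fin d → Fin l), At E ((d + 1) * (l * j) + d)
      ((d + 1) * (l * (j + 1))) (emb σ hb (j, y)) := by
    intro j y a
    have h1 : l * ((j : ℕ) + 1) ≤ l * b := Nat.mul_le_mul_left l j.2
    have h2 := (y a).2
    have h3 : l * ((j : ℕ) + 1) = l * j + l := by ring
    obtain ⟨i, hi1, hi2⟩ := hσ ⟨l * j + y a, by omega⟩ (by simp only; omega)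
    simp only at hi1
    refine ⟨i, hi2, ?_, ?_⟩
    · rw [hi1]
      have : (d + 1) * (l * (j : ℕ)) ≤ (d + 1) * (l * j + y a) := Nat.mul_le_mul_left _ (by omega)
      omega
    · rw [hi1]
      have h4 : (d + 1) * (l * (j : ℕ) + y a + 1) ≤ (d + 1) * (l * (j + 1)) :=
        Nat.mul_le_mul_left _ (by omega)
      have h5 : (d + 1) * (l * (j : ℕ) + y a + 1) = (d + 1) * (l * (j : ℕ) + y a) + (d + 1) := by
        ring
      omega
  have hkb : l * ((k : ℕ) + 1) ≤ l * b := Nat.mul_le_mul_left l k.2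
  have hk0 : l * (k : ℕ) ≤ l * (k + 1) := Nat.mul_le_mul_left l (Nat.le_succ _)
  have hbig : ∀ m : ℕ, m ≤ K₀ → (d + 1) * m + d ≤ (d + 1) * (K₀ + 1) := by
    intro m hm
    have h1 : (d + 1) * m ≤ (d + 1) * K₀ := Nat.mul_le_mul_left _ hm
    have h2 : (d + 1) * (K₀ + 1) = (d + 1) * K₀ + (d + 1) := by ring
    omega
  have hTop : topSet E ⊆ T := by
    intro x hx
    obtain ⟨i, -, rfl⟩ := mem_image.1 hx
    exact hET _
  have hlowB : ∀ (j : Fin b) (y : Fin d → Fin l), Low T (topSet E) (emb σ hb (j, y)) := by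
    intro j y
    apply (hblock j y).low hE hET
    have h1 : l * ((j : ℕ) + 1) ≤ l * b := Nat.mul_le_mul_left l j.2
    have := hbig (l * (j + 1)) (h1.trans hbl)
    omega
  -- one node for each pair of labels
  have key : ∀ (P P' : Fin d → Fin d → Bool) (i j : Fin p) (side : Bool), ∃ n : List Bool,
      ∀ (x z : List Bool) (y : Fin d → Fin l) (k' : Fin b) (y' : Fin d → Fin l),
        leafAt D x = some (emb σ hb (k, y)) → leafAt D z = some (emb σ hb (k', y')) →
        pat (emb σ hb (k, y)) = P → pat (emb σ hb (k', y')) = P' → num x = i → num z = j →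
        (if side = true then k < k' else k' < k) → Parts n x z := by
    intro P P' i j side
    set X : Set (List Bool) := {x | num x = i ∧ ∃ y : Fin d → Fin l,
      leafAt D x = some (emb σ hb (k, y)) ∧ pat (emb σ hb (k, y)) = P} with hX
    set Z : Set (List Bool) := {z | num z = j ∧ ∃ (k' : Fin b) (y' : Fin d → Fin l),
      leafAt D z = some (emb σ hb (k', y')) ∧ pat (emb σ hb (k', y')) = P' ∧
        (if side = true then k < k' else k' < k)} with hZ
    suffices h : ∃ n, ∀ x ∈ X, ∀ z ∈ Z, Parts n x z by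
      obtain ⟨n, hn⟩ := h
      exact ⟨n, fun x z y k' y' h1 h2 h3 h4 h5 h6 h7 => hn x ⟨h5, y, h1, h3⟩ z
        ⟨h6, k', y', h2, h4, h7⟩⟩
    rcases X.eq_empty_or_nonempty with hXe | ⟨x₀, -, y₀, hx₀, hP₀⟩
    · rw [hXe]
      exact ⟨[], fun x hx => absurd hx (Set.notMem_empty x)⟩
    obtain ⟨ce, he1, he2⟩ := exists_anchor hE hEN (emb σ hb (k, y₀)) ((d + 1) * (l * k))
      (by have := hbig (l * k) (hk0.trans (hkb.trans hbl)); omega)
    obtain ⟨cw, hw1, hw2⟩ := exists_anchor hE hEN (emb σ hb (k, y₀)) ((d + 1) * (l * (k + 1)))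
      (by have := hbig (l * (k + 1)) (hkb.trans hbl); omega)
    have d0 : Fin d := ⟨0, hd⟩
    -- positions
    have pe : ∀ (y : Fin d → Fin l) a b, ce a < emb σ hb (k, y) b := fun y =>
      he1.lt hE (hblock k y) le_rfl
    have pw : ∀ (y : Fin d → Fin l) a b, emb σ hb (k, y) a < cw b := fun y =>
      (hblock k y).lt hE hw1 le_rfl
    have plate : ∀ (k' : Fin b) (y' : Fin d → Fin l), k < k' → ∀ a b,
        cw a < emb σ hb (k', y') b := by
      intro k' y' hk
      apply hw1.lt hE (hblock k' y')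
      have : (d + 1) * (l * ((k : ℕ) + 1)) ≤ (d + 1) * (l * k') :=
        Nat.mul_le_mul_left _ (Nat.mul_le_mul_left _ hk)
      omega
    have pearly : ∀ (k' : Fin b) (y' : Fin d → Fin l), k' < k → ∀ a b,
        emb σ hb (k', y') a < ce b := by
      intro k' y' hk
      apply (hblock k' y').lt hE he1
      exact Nat.mul_le_mul_left _ (Nat.mul_le_mul_left _ hk)
    have plate2 : ∀ (k' : Fin b) (y' y : Fin d → Fin l), k < k' → ∀ a b,
        emb σ hb (k, y) a < emb σ hb (k', y') b := fun k' y' y hk a b =>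
      (pw y a d0).trans (plate k' y' hk d0 b)
    have pearly2 : ∀ (k' : Fin b) (y' y : Fin d → Fin l), k' < k → ∀ a b,
        emb σ hb (k', y') a < emb σ hb (k, y) b := fun k' y' y hk a b =>
      (pearly k' y' hk a d0).trans (pe y d0 b)
    have pew : ∀ a b, ce a < cw b := fun a b => (pe y₀ a d0).trans (pw y₀ d0 b)
    have hpatX : ∀ y : Fin d → Fin l, pat (emb σ hb (k, y)) = P → ∀ a b,
        emb σ hb (k, y) a < emb σ hb (k, y) b ↔ emb σ hb (k, y₀) a < emb σ hb (k, y₀) b :=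
      fun y hy => pat_iff (hy.trans hP₀.symm)
    apply sep_node hnum hom hTop (topSet_card hE) i.2 j.2 ce cw (he1.low hE hET ?_)
      (hw1.low hE hET ?_) X Z
    · rintro x ⟨h1, y, h2, h3⟩
      exact ⟨h1, _, h2, hlowB k y⟩
    · rintro z ⟨h1, k', y', h2, h3, h4⟩
      exact ⟨h1, _, h2, hlowB k' y'⟩
    · rintro x ⟨h1, y, h2, h3⟩ c hc
      rw [h2] at hc
      obtain rfl := Option.some.inj hc
      refine ⟨fun e => ?_, same_self fun a b => (hpatX y h3 a b).trans (hw2 a b),
        same_self fun a b => (hpatX y h3 a b).trans (he2 a b)⟩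
      have := pw y d0 d0
      rw [e] at this
      exact lt_irrefl _ this
    · rintro z ⟨h1, k', y', h2, h3, h4⟩ c hc e
      rw [h2] at hc
      obtain rfl := Option.some.inj hc
      by_cases hs : side = true
      · rw [if_pos hs] at h4
        have := plate k' y' h4 d0 d0
        rw [e] at this
        exact lt_irrefl _ this
      · rw [if_neg hs] at h4
        have := (pearly k' y' h4 d0 d0).trans (pew d0 d0)
        rw [e] at this
        exact lt_irrefl _ this
    · rintro x ⟨-, y, h2, -⟩ z ⟨-, k', y', h3, -, h4⟩ c c' hc hc' e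
      rw [h2] at hc
      rw [h3] at hc'
      obtain rfl := Option.some.inj hc
      obtain rfl := Option.some.inj hc'
      have h5 := emb_injective hd σ hb e
      rw [Prod.mk.injEq] at h5
      rw [← h5.1] at h4
      split_ifs at h4 <;> exact lt_irrefl _ h4
    · rintro x ⟨-, y, hx, hxP⟩ z ⟨-, k', y', hz, hzP, hs⟩ c u hc hu x₂ ⟨-, y₂, hx₂, hxP₂⟩ z₂
        ⟨-, k₂, y₂', hz₂, hzP₂, hs₂⟩ c₂ u₂ hc₂ hu₂
      rw [hx] at hc
      rw [hz] at hu
      rw [hx₂] at hc₂
      rw [hz₂] at hu₂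
      obtain rfl := Option.some.inj hc
      obtain rfl := Option.some.inj hu
      obtain rfl := Option.some.inj hc₂
      obtain rfl := Option.some.inj hu₂
      have q1 : ∀ a b, emb σ hb (k, y) a < emb σ hb (k, y) b ↔
          emb σ hb (k, y₂) a < emb σ hb (k, y₂) b := pat_iff (hxP.trans hxP₂.symm)
      have q2 : ∀ a b, emb σ hb (k', y') a < emb σ hb (k', y') b ↔
          emb σ hb (k₂, y₂') a < emb σ hb (k₂, y₂') b := pat_iff (hzP.trans hzP₂.symm)
      constructor
      · refine same_val3 q1 (fun _ _ => Iff.rfl) q2 (fun a b => ⟨pw y a b, pw y₂ a b⟩) ?_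
        by_cases hside : side = true
        · rw [if_pos hside] at hs hs₂
          exact Or.inl fun a b => ⟨plate2 _ _ _ hs a b, plate _ _ hs a b, plate2 _ _ _ hs₂ a b,
            plate _ _ hs₂ a b⟩
        · rw [if_neg hside] at hs hs₂
          exact Or.inr fun a b => ⟨pearly2 _ _ _ hs b a, (pearly _ _ hs b d0).trans (pew d0 a),
            pearly2 _ _ _ hs₂ b a, (pearly _ _ hs₂ b d0).trans (pew d0 a)⟩
      · refine same_val3 (fun a b => (hpatX y hxP a b).trans (he2 a b))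
          (fun a b => (hw2 a b).symm.trans (hpatX y₂ hxP₂ a b).symm) q2
          (fun a b => ⟨pw y a b, pe y₂ a b⟩) ?_
        by_cases hside : side = true
        · rw [if_pos hside] at hs hs₂
          exact Or.inl fun a b => ⟨plate2 _ _ _ hs a b, plate _ _ hs a b,
            (pew a d0).trans (plate _ _ hs₂ d0 b), plate2 _ _ _ hs₂ a b⟩
        · rw [if_neg hside] at hs hs₂
          exact Or.inr fun a b => ⟨pearly2 _ _ _ hs b a, (pearly _ _ hs b d0).trans (pew d0 a),
            pearly _ _ hs₂ b a, pearly2 _ _ _ hs₂ b a⟩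
    · exact hbig _ (hk0.trans (hkb.trans hbl))
    · exact hbig _ (hkb.trans hbl)
  choose nd hnd using key
  refine ⟨univ.image fun q : ((Fin d → Fin d → Bool) × Fin p) × ((Fin d → Fin d → Bool) × Fin p) ×
    Bool => nd q.1.1 q.2.1.1 q.1.2 q.2.1.2 q.2.2, card_image_le, ?_⟩
  rintro x z c c' hx hz ⟨y, rfl⟩ ⟨k', y', hk', rfl⟩
  refine ⟨nd (pat (emb σ hb (k, y))) (pat (emb σ hb (k', y'))) ⟨num x, hnum0 x _ hx⟩
    ⟨num z, hnum0 z _ hz⟩ (decide (k < k')), mem_image.2 ⟨((pat (emb σ hb (k, y)),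
      ⟨num x, hnum0 x _ hx⟩), (pat (emb σ hb (k', y')), ⟨num z, hnum0 z _ hz⟩),
        decide (k < k')), mem_univ _, rfl⟩, ?_⟩
  refine hnd _ _ _ _ _ x z y k' y' hx hz rfl rfl rfl rfl ?_
  by_cases h : k < k'
  · simp [h]
  · simp only [h, decide_false, Bool.false_eq_true, if_false]
    exact lt_of_le_of_ne (not_lt.1 h) hk'

end Pool.Agent.U286.TR
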