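import Pool.Agent.U286.TR.Sigma
import Pool.Agent.R756.WP.Top

/-!
# Families of sets decided by tree tensor networks
-/

set_option autoImplicit false

open Finset

namespace Pool.Agent.U286.TR

open Pool.Agent.Y613.PJ hiding Good
open Pool.Agent.Y613.RA Pool.Agent.R756.WP

/-- the number of the pairs of labels -/
def labels (d p : ℕ) : ℕ :=
  Fintype.card (((Fin d → Fin d → Bool) × Fin p) × ((Fin d → Fin d → Bool) × Fin p) × Bool)

/-- a homogeneous set gives blocks of small rank -/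
theorem cov_of_tree {d : ℕ} (hd : 1 ≤ d) {w p l : ℕ} (hw1 : 1 ≤ w)
    (hl : ∀ χ : Set (Fin d → Fin l) → Fin (w ^ labels d p),
      ∃ (a : Set (Fin d → Fin l)) (γ : Set (Fin l)),
        γ.Nonempty ∧ Disjoint a (cubeSet d γ) ∧ χ a = χ (a ∪ cubeSet d γ))
    {K : Type} [Field K] {w' N K₀ : ℕ} (hw : w' ≤ w) (D : Net K (Fin d → Fin N) (Fin w'))
    (φ : (Fin w' → K) →ₗ[K] K) {num : List Bool → ℕ}
    (hnum0 : ∀ a i, leafAt D a = some i → num a < p)
    (hnum : ∀ a a' i, leafAt D a = some i → leafAt D a' = some i → num a = num a' → a = a')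
    (T : Finset ℕ) (hTN : T ⊆ range N) (hTK : #T = (d + 1) * (K₀ + 1) + 3 * d)
    (hom : Hom D num p T) :
    ∃ σ : Fin N ≃ Fin N, ∀ (b : ℕ) (hb : b * l ≤ N), b * l ≤ K₀ →
      Cov fun y : Conf b (Fin d → Fin l) (Rest σ hb d) =>
        φ (D.eval fun c => y ((cellEquiv hd σ hb).symm c)) ≠ 0 := by
  classical
  obtain ⟨σ, E, hE, hET, hEN, hσ⟩ := exists_sigma T hTN hTK
  refine ⟨σ, fun b hb hbK => ?_⟩
  refine cov_of_rank hl (fun y => φ (D.eval fun c => y ((cellEquiv hd σ hb).symm c))) ?_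
  intro ρ k
  obtain ⟨𝒩, h1, h2⟩ := exists_sep hnum0 hnum hom hE hET hEN hd σ hσ hb hbK k
  obtain ⟨κ, hfin, f, g, f1, f2, f3, f4⟩ := rank_of_sep (w := w)
    (by rw [Fintype.card_fin]; exact hw) hw1 D φ 𝒩 _ _ h2
  refine ⟨κ, hfin, fun i y => f i (fun c => y ((cellEquiv hd σ hb).symm c)),
    fun i y => g i (fun c => y ((cellEquiv hd σ hb).symm c)), ?_, ?_, ?_, ?_⟩
  · exact f1.trans (Nat.pow_le_pow_right hw1 h1)
  · intro i y y' hy hy' hyk
    refine f2 i _ _ fun c hc => ?_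
    obtain ⟨s, rfl⟩ := (cellEquiv hd σ hb).surjective c
    rw [Equiv.symm_apply_apply]
    rcases s with ⟨j, x⟩ | r
    · have hj : j = k := by
        by_contra hjk
        exact hc ⟨j, x, hjk, cellEquiv_inl hd σ hb j x⟩
      subst hj
      exact congrFun hyk x
    · exact congrFun (hy.trans hy'.symm) r
  · intro i y u hy
    refine f3 i _ _ fun c hc => ?_
    obtain ⟨s, rfl⟩ := (cellEquiv hd σ hb).surjective c
    rw [Equiv.symm_apply_apply]
    rcases s with ⟨j, x⟩ | r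
    · have hj : j ≠ k := by
        rintro rfl
        exact hc ⟨x, cellEquiv_inl hd σ hb j x⟩
      simp only [put, if_neg hj]
    · rfl
  · intro y hy
    exact f4 _

theorem core (d : ℕ) (hd : 1 ≤ d) : ∃ C : ℕ, ∀ w p : ℕ, ∃ (η lam : ℝ) (a : ℕ), 0 < η ∧ 0 < lam ∧
    lam < 1 ∧ ∀ (N n : ℕ) (F S : Finset (Finset (Fin d → Fin N))),
      RC.tow C (a * (n + 1)) ≤ N → TreeDecided d N w p F → 8 * lam ^ n * 2 ^ (N ^ d) < #F →
        (#(F \ S) : ℝ) ≤ η * #F → Good S := by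
  classical
  obtain ⟨C, hC⟩ := exists_canon (3 * d) (Fin d ⊕ Fin d ⊕ Fin d) (by
    simp only [Fintype.card_sum, Fintype.card_fin]
    omega)
  refine ⟨C, fun w p => ?_⟩
  obtain ⟨a, ha⟩ := hC ((Fin p × Fin p × Fin 3) ⊕ Fin p)
  by_cases hw : w = 0
  · subst hw
    refine ⟨1, 1 / 2, a, by norm_num, by norm_num, by norm_num, ?_⟩
    rintro N n F S - ⟨K', _, w', D, φ, hw', -, hF⟩ hbig -
    exfalso
    have h0 : w' = 0 := by omega
    subst h0
    have : F = ∅ := by
      rw [eq_empty_iff_forall_notMem]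
      intro A hA
      apply (hF A).1 hA
      have : D.eval (fun c => decide (c ∈ A)) = 0 := Subsingleton.elim _ _
      rw [this, map_zero]
    rw [this] at hbig
    simp only [card_empty, Nat.cast_zero] at hbig
    have : (0 : ℝ) < 8 * (1 / 2) ^ n * 2 ^ (N ^ d) := by positivity
    linarith
  have hw1 : 1 ≤ w := Nat.one_le_iff_ne_zero.2 hw
  obtain ⟨l, hl⟩ := exists_pair d hd (Fin (w ^ labels d p))
  have hl0 : 0 < l := by
    have h1 : 0 < w ^ labels d p := by positivity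
    obtain ⟨-, γ, ⟨x, -⟩, -⟩ := hl fun _ => ⟨0, h1⟩
    exact lt_of_le_of_lt (Nat.zero_le _) x.2
  obtain ⟨η, lam, hη, hlam, hlam1, hmain⟩ := main' d hd l hl0
  refine ⟨η, lam, a * (4 * d + 2), hη, hlam, hlam1, ?_⟩
  rintro N n F S hN ⟨K', _, w', D, φ, hw', hp, hF⟩ hbig hsmall
  obtain ⟨num, hnum0, hnum⟩ := exists_num D p hp
  have hle : RC.tow C (a * ((d + 1) * (n + 1) + 3 * d + 1)) ≤ N := by
    refine le_trans (RC.tow_mono C _ _ ?_) hN
    rw [mul_assoc]
    apply Nat.mul_le_mul_left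
    nlinarith [Nat.zero_le (d * n)]
  obtain ⟨T, hTN, hTK, hom⟩ := ha N ((d + 1) * (n + 1) + 3 * d) (Prop3 D num p) hle
  obtain ⟨σ, hσ⟩ := cov_of_tree hd hw1 hl hw' D φ hnum0 hnum T hTN hTK hom
  have hnN : n ≤ N := by
    have := card_le_card hTN
    rw [hTK, card_range] at this
    nlinarith [Nat.zero_le (d * n)]
  exact hmain N n σ (fun z => φ (D.eval z) ≠ 0) hnN hσ F S hF hbig hsmall

/-- length of the messages, number of reads and inverse density may tend to infinity -/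
theorem growing (d : ℕ) (hd : 1 ≤ d) : ∃ f : ℕ → ℕ, Filter.Tendsto f Filter.atTop Filter.atTop ∧
    ∀ (N : ℕ) (G : Fin (f N) → Finset (Finset (Fin d → Fin N)))
      (S : Finset (Finset (Fin d → Fin N))), (∀ i, TreeDecided d N (f N) (f N) (G i)) →
      (∀ A, A ∈ S ↔ ∃ i, A ∈ G i) → 2 ^ (N ^ d) ≤ f N * #S → Good S := by
  classical
  obtain ⟨C, hC⟩ := core d hd
  have hk : ∀ k : ℕ, ∃ N₀ : ℕ, ∀ N, N₀ ≤ N → ∀ (G : Fin k → Finset (Finset (Fin d → Fin N)))
      (S : Finset (Finset (Fin d → Fin N))), (∀ i, TreeDecided d N k k (G i)) →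
      (∀ A, A ∈ S ↔ ∃ i, A ∈ G i) → 2 ^ (N ^ d) ≤ k * #S → Good S := by
    intro k
    obtain ⟨η, lam, a, hη, hlam, hlam1, h⟩ := hC k k
    obtain ⟨K, hK⟩ := exists_pow_lt_of_lt_one (show (0 : ℝ) < 1 / (8 * ((k : ℝ) * k + 1)) by
      positivity) hlam1
    refine ⟨RC.tow C (a * (K + 1)), ?_⟩
    intro N hN G S hG hS hcard
    have hex : ∃ i, 8 * lam ^ K * 2 ^ (N ^ d) < (#(G i) : ℝ) := by
      by_contra hno
      push Not at hno
      have h1 : S = univ.biUnion G := by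
        ext A
        rw [hS, mem_biUnion]
        simp
      have h2 : (#S : ℝ) ≤ ∑ i, (#(G i) : ℝ) := by
        rw [h1]
        exact_mod_cast card_biUnion_le
      have h3 : ∑ i, (#(G i) : ℝ) ≤ ∑ _i : Fin k, 8 * lam ^ K * 2 ^ (N ^ d) :=
        sum_le_sum fun i _ => hno i
      rw [sum_const, card_univ, Fintype.card_fin, nsmul_eq_mul] at h3
      have h4 : (2 : ℝ) ^ (N ^ d) ≤ k * #S := by exact_mod_cast hcard
      have h5 : (k : ℝ) * #S ≤ k * (k * (8 * lam ^ K * 2 ^ (N ^ d))) :=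
        mul_le_mul_of_nonneg_left (h2.trans h3) (Nat.cast_nonneg k)
      have hpos : (0 : ℝ) < 2 ^ (N ^ d) := by positivity
      have h6 : (1 : ℝ) ≤ k * k * (8 * lam ^ K) := by
        have h7 : (2 : ℝ) ^ (N ^ d) * 1 ≤ 2 ^ (N ^ d) * (k * k * (8 * lam ^ K)) := by
          rw [mul_one]
          refine (h4.trans h5).trans (le_of_eq ?_)
          ring
        exact le_of_mul_le_mul_left h7 hpos
      have h8 : (k : ℝ) * k * (8 * lam ^ K) ≤ k * k * (8 * (1 / (8 * ((k : ℝ) * k + 1)))) := by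
        have := hK.le
        gcongr
      have h9 : (k : ℝ) * k * (8 * (1 / (8 * ((k : ℝ) * k + 1)))) < 1 := by
        have h10 : (0 : ℝ) < (k : ℝ) * k + 1 := by positivity
        have h11 : (k : ℝ) * k * (8 * (1 / (8 * ((k : ℝ) * k + 1)))) =
            (k * k) / ((k : ℝ) * k + 1) := by field_simp
        rw [h11, div_lt_one h10]
        linarith
      linarith
    obtain ⟨i, hi⟩ := hex
    refine h N K (G i) S hN (hG i) hi ?_
    have h1 : G i \ S = ∅ := sdiff_eq_empty_iff_subset.2 fun A hA => (hS A).2 ⟨i, hA⟩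
    rw [h1, card_empty, Nat.cast_zero]
    positivity
  choose N₀ hN₀ using hk
  refine ⟨fun N => Nat.findGreatest (fun k => N₀ k ≤ N) N, ?_, ?_⟩
  · rw [Filter.tendsto_atTop_atTop]
    intro k
    refine ⟨max k (N₀ k), fun N hN => ?_⟩
    exact Nat.le_findGreatest ((le_max_left _ _).trans hN) ((le_max_right _ _).trans hN)
  · intro N G S hG hS hcard
    by_cases h0 : Nat.findGreatest (fun k => N₀ k ≤ N) N = 0
    · simp only at hcard
      rw [h0, zero_mul] at hcard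
      exact absurd hcard (by simp)
    · have h1 : N₀ (Nat.findGreatest (fun k => N₀ k ≤ N) N) ≤ N :=
        Nat.findGreatest_of_ne_zero (P := fun k => N₀ k ≤ N) (n := N) rfl h0
      exact hN₀ _ N h1 G S hG hS hcard

end Pool.Agent.U286.TR
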